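import Pool.Agent.Helper33.DP.Sheet

/-!
# Row SPLIT (MP_fcb106_co): the greedy part
-/

set_option autoImplicit false

namespace Pool.Agent.Helper29.PL

open Pool.Agent.Helper33.DP

theorem cp_and {α : Type} [Primcodable α] {p q : α → Prop} (hp : ComputablePred p)
    (hq : ComputablePred q) : ComputablePred fun a => p a ∧ q a := by
  obtain ⟨f, hf, rfl⟩ := ComputablePred.computable_iff.1 hp
  obtain ⟨g, hg, rfl⟩ := ComputablePred.computable_iff.1 hq
  exact ComputablePred.computable_iff.2
    ⟨fun a => f a && g a, (Primrec.and.to_comp).comp hf hg, by funext a; simp⟩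

theorem cp_or {α : Type} [Primcodable α] {p q : α → Prop} (hp : ComputablePred p)
    (hq : ComputablePred q) : ComputablePred fun a => p a ∨ q a := by
  obtain ⟨f, hf, rfl⟩ := ComputablePred.computable_iff.1 hp
  obtain ⟨g, hg, rfl⟩ := ComputablePred.computable_iff.1 hq
  exact ComputablePred.computable_iff.2
    ⟨fun a => f a || g a, (Primrec.or.to_comp).comp hf hg, by funext a; simp⟩

theorem cp_comp {α β : Type} [Primcodable α] [Primcodable β] {p : β → Prop}
    (hp : ComputablePred p) {f : α → β} (hf : Computable f) :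
    ComputablePred fun a => p (f a) := by
  obtain ⟨g, hg, rfl⟩ := ComputablePred.computable_iff.1 hp
  exact ComputablePred.computable_iff.2 ⟨fun a => g (f a), hg.comp hf, rfl⟩

theorem cp_fin {α : Type} [Primcodable α] : ∀ {k : ℕ} {p : Fin k → α → Prop},
    (∀ i, ComputablePred (p i)) → ComputablePred fun a => ∀ i, p i a := by
  intro k
  induction k with
  | zero =>
    intro p _
    exact ComputablePred.computable_iff.2
      ⟨fun _ => true, Computable.const true, by funext a; simp⟩
  | succ k ih =>
    intro p h
    refine (cp_and (h 0) (ih (p := fun i => p i.succ) fun i => h i.succ)).of_eq fun a => ?_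
    exact (Fin.forall_fin_succ (P := fun i => p i a)).symm

theorem cp_const {α : Type} [Primcodable α] (c : Prop) : ComputablePred fun _ : α => c := by
  classical
  by_cases h : c
  · exact ComputablePred.computable_iff.2
      ⟨fun _ => true, Computable.const true, by funext a; simp [h]⟩
  · exact ComputablePred.computable_iff.2
      ⟨fun _ => false, Computable.const false, by funext a; simp [h]⟩

theorem cp_imp {α : Type} [Primcodable α] {p q : α → Prop} (hp : ComputablePred p)
    (hq : ComputablePred q) : ComputablePred fun a => p a → q a := by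
  refine (cp_or hp.not hq).of_eq fun a => ?_
  exact imp_iff_not_or.symm

theorem cp_mem : ComputablePred fun t : List ℕ × ℕ => t.2 ∈ t.1 := by
  have h : PrimrecRel fun (L : List ℕ) (b : ℕ) => ∃ a ∈ L, a = b :=
    PrimrecRel.exists_mem_list Primrec.eq
  refine (PrimrecPred.computablePred h).of_eq fun t => ?_
  constructor
  · rintro ⟨a, ha, h⟩
    exact h ▸ ha
  · intro h
    exact ⟨_, h, rfl⟩

theorem cp_eq : ComputablePred fun t : ℕ × ℕ => t.1 = t.2 :=
  PrimrecPred.computablePred (Primrec.eq (α := ℕ))

/-- The condition on the tuple. -/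
def QQ (le : ℕ → ℕ → Prop) (w : ℕ) (t : List ℕ × ℕ) (X : Fin (w + 1) → ℕ) : Prop :=
  (∀ i, X i ∈ t.1 ∨ X i = t.2) ∧ ∀ i j, i ≠ j → ¬ le (X i) (X j)

theorem cp_QQ {le : ℕ → ℕ → Prop} (hle : ComputablePred (fun p : ℕ × ℕ => le p.1 p.2)) (w : ℕ) :
    ComputablePred fun t : (List ℕ × ℕ) × (Fin (w + 1) → ℕ) => QQ le w t.1 t.2 := by
  have happ : ∀ i : Fin (w + 1),
      Computable fun t : (List ℕ × ℕ) × (Fin (w + 1) → ℕ) => t.2 i := fun i =>
    (Computable.fin_app (σ := ℕ) (n := w + 1)).comp Computable.snd (Computable.const i)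
  refine cp_and (cp_fin fun i => cp_or ?_ ?_) (cp_fin fun i => cp_fin fun j => ?_)
  · exact cp_comp cp_mem ((Computable.fst.comp Computable.fst).pair (happ i))
  · exact cp_comp cp_eq ((happ i).pair (Computable.snd.comp Computable.fst))
  · exact cp_imp (cp_const _) (cp_comp hle ((happ i).pair (happ j))).not

theorem SPLIT (hBQT : ST_BQT) : ST_SPLIT := by
  intro P le w hP _
  have hc : ComputablePred fun t : List ℕ × ℕ =>
      t.2 ∈ P ∧ ¬ ∃ X : Fin (w + 1) → ℕ, (∀ i, X i ≤ t.2) ∧ QQ le w t X := by
    refine cp_and (cp_comp hP.mem Computable.snd) (ComputablePred.not ?_)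
    have h := hBQT (List ℕ × ℕ) (w + 1) (QQ le w) (cp_QQ hP.rel w)
    exact cp_comp h (Computable.id.pair Computable.snd)
  obtain ⟨t, ht, hte⟩ := ComputablePred.computable_iff.1 hc
  have htt : ∀ l n, t (l, n) = true ↔
      n ∈ P ∧ ¬ ∃ X : Fin (w + 1) → ℕ, (∀ i, X i ≤ n) ∧ QQ le w (l, n) X := by
    intro l n
    exact (congrFun hte (l, n)).symm ▸ Iff.rfl
  let L : ℕ → List ℕ := fun n =>
    Nat.rec [] (fun n l => cond (t (l, n)) (n :: l) l) n
  have hL : Computable L := by
    refine Computable.nat_rec (f := fun n : ℕ => n) (g := fun _ => ([] : List ℕ))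
      (h := fun _ p => cond (t (p.2, p.1)) (p.1 :: p.2) p.2) Computable.id (Computable.const _) ?_
    refine Computable.cond ?_ ?_ ?_
    · exact ht.comp ((Computable.snd.comp Computable.snd).pair
        (Computable.fst.comp Computable.snd))
    · exact Computable.list_cons.comp (Computable.fst.comp Computable.snd)
        (Computable.snd.comp Computable.snd)
    · exact Computable.snd.comp Computable.snd
  let B : Set ℕ := {n | t (L n, n) = true}
  have hmem : ∀ n m, m ∈ L n ↔ m < n ∧ m ∈ B := by
    intro n
    induction n with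
    | zero =>
      intro m
      simp [L]
    | succ n ih =>
      intro m
      have hs : L (n + 1) = cond (t (L n, n)) (n :: L n) (L n) := rfl
      rw [hs]
      rcases hb : t (L n, n) with _ | _
      · have hn : n ∉ B := by
          intro h
          have : t (L n, n) = true := h
          rw [hb] at this
          exact absurd this (by decide)
        rw [cond_false, ih m]
        constructor
        · rintro ⟨h1, h2⟩
          exact ⟨by omega, h2⟩
        · rintro ⟨h1, h2⟩
          refine ⟨?_, h2⟩
          rcases Nat.lt_succ_iff_lt_or_eq.1 h1 with h | h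
          · exact h
          · exact absurd (h ▸ h2) hn
      · have hn : n ∈ B := hb
        rw [cond_true, List.mem_cons, ih m]
        constructor
        · rintro (h | ⟨h1, h2⟩)
          · exact ⟨by omega, h ▸ hn⟩
          · exact ⟨by omega, h2⟩
        · rintro ⟨h1, h2⟩
          rcases Nat.lt_succ_iff_lt_or_eq.1 h1 with h | h
          · exact Or.inr ⟨h, h2⟩
          · exact Or.inl h
  have hBP : B ⊆ P := fun n hn => ((htt _ _).1 hn).1
  have hw : WLe B le w := by
    intro s hs ha
    by_contra hcard
    obtain ⟨u, hus, hu⟩ := Finset.exists_subset_card_eq (s := s) (n := w + 1) (by omega)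
    have hune : u.Nonempty := by
      rw [← Finset.card_pos, hu]
      omega
    have hmax : u.max' hune ∈ u := u.max'_mem hune
    have hmB : u.max' hune ∈ B := hs _ (hus hmax)
    refine ((htt _ _).1 hmB).2 ?_
    let e := (u.equivFinOfCardEq hu).symm
    refine ⟨fun i => (e i : ℕ), fun i => u.le_max' _ (e i).2, ?_, ?_⟩
    · intro i
      rcases (u.le_max' _ (e i).2).lt_or_eq with h | h
      · exact Or.inl ((hmem _ _).2 ⟨h, hs _ (hus (e i).2)⟩)
      · exact Or.inr h
    · intro i j hij
      refine ha _ (hus (e i).2) _ (hus (e j).2) ?_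
      intro h
      exact hij (e.injective (Subtype.ext h))
  refine ⟨B, hBP, ComputablePred.computable_iff.2 ⟨fun n => t (L n, n), ?_, ?_⟩, hw, ?_⟩
  · exact ht.comp (hL.pair Computable.id)
  · rfl
  · intro n hn hnB
    have h1 : ∃ X : Fin (w + 1) → ℕ, (∀ i, X i ≤ n) ∧ QQ le w (L n, n) X := by
      by_contra h
      exact hnB ((htt _ _).2 ⟨hn, h⟩)
    obtain ⟨X, _, hX1, hX2⟩ := h1
    have hXP : ∀ i, X i ∈ P := by
      intro i
      rcases hX1 i with h | h
      · exact hBP ((hmem _ _).1 h).2
      · exact h ▸ hn
    have hinj : Function.Injective X := by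
      intro i j hij
      by_contra h
      exact hX2 i j h (hij ▸ hP.refl _ (hXP i))
    refine ⟨X, ⟨hXP, hX2⟩, ?_⟩
    by_contra hno
    push Not at hno
    have hc2 := hw (Finset.univ.image X) (by
      intro a ha
      obtain ⟨i, _, rfl⟩ := Finset.mem_image.1 ha
      rcases hX1 i with h | h
      · exact ((hmem _ _).1 h).2
      · exact absurd h (hno i)) (by
      intro a ha b hb hab
      obtain ⟨i, _, rfl⟩ := Finset.mem_image.1 ha
      obtain ⟨j, _, rfl⟩ := Finset.mem_image.1 hb
      exact hX2 i j fun h => hab (congrArg X h))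
    rw [Finset.card_image_of_injective _ hinj, Finset.card_univ, Fintype.card_fin] at hc2
    omega

end Pool.Agent.Helper29.PL
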